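import Mathlib
import Pool.Agent.H393R3.CovBip

set_option autoImplicit false

/-!
`cov(2,k) ≥ 2k - 4` for every `k ≥ 1`; in particular `cov(2,k) ≥ 2k - 4√k` for every `k ≥ 1`.
-/

namespace Pool.Agent.Results.MP_acc8c3_co.SpanningCover

open Pool.Agent.H393R3.CovBip

theorem covSet_nonempty (k : ℕ) (hk : 0 < k) : (covSet k).Nonempty := by
  refine ⟨coverNumber (fun (_ : Unit) (_ : Unit) => (⟨0, hk⟩ : Fin k)), Unit, Unit, inferInstance,
    inferInstance, inferInstance, inferInstance, _, ?_, rfl⟩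
  rintro i ⟨a, b, h⟩
  exact ⟨fun _ => ⟨(), h⟩, fun _ => ⟨(), h⟩⟩

theorem covSet_le (k : ℕ) {n : ℕ} (h : n ∈ covSet k) : n ≤ 2 * k := by
  obtain ⟨A, B, hA, hB, hA', hB', c, -, rfl⟩ := h
  exact coverNumber_le

theorem covSet_bdd (k : ℕ) : BddAbove (covSet k) := ⟨2 * k, fun _ h => covSet_le k h⟩

theorem isGreatest (k : ℕ) (hk : 0 < k) : IsGreatest (covSet k) (cov k) :=
  ⟨Nat.sSup_mem (covSet_nonempty k hk) (covSet_bdd k), fun _ h => le_csSup (covSet_bdd k) h⟩

theorem cov_three : 2 ≤ cov 3 := by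
  let c : Fin 3 → Fin 3 → Fin 3 := fun a b => a + b
  have hsp : Spanning c := by
    intro i _
    constructor
    · intro a
      exact ⟨i - a, by simp [c]⟩
    · intro b
      exact ⟨i - b, by simp [c]⟩
  have h2 : 2 ≤ coverNumber c := by
    apply le_coverNumber
    intro S hS hcov
    let w : Fin 3 → Fin 3 ⊕ Fin 3 → Fin 3 := fun i v => Sum.elim (fun a => a) (fun b => i - b) v
    obtain ⟨T, hT1, hT2⟩ := exists_T (w := w) (by intro a b; simp [w, c]) S hS hcov
    refine le_trans ?_ hT1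
    by_contra hlt
    push Not at hlt
    obtain ⟨p, hp, hp'⟩ := hT2 (Sum.inl 0)
    obtain ⟨q, hq, hq'⟩ := hT2 (Sum.inl 1)
    have hpq : p = q := Finset.card_le_one.1 (by omega) p hp q hq
    rw [hpq] at hp'
    have h01 : (0 : Fin 3) = 1 := hp'.trans hq'.symm
    exact absurd h01 (by decide)
  exact h2.trans (le_csSup (covSet_bdd 3)
    ⟨Fin 3, Fin 3, inferInstance, inferInstance, inferInstance, inferInstance, c, hsp, rfl⟩)

theorem two_mul_le (k : ℕ) : 2 * k ≤ cov k + 4 := by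
  rcases Nat.lt_or_ge k 3 with h | h
  · omega
  · rcases Nat.lt_or_ge k 4 with h' | h'
    · obtain rfl : k = 3 := by omega
      have := cov_three
      omega
    · obtain ⟨n, rfl⟩ : ∃ n, k = n + 4 := ⟨k - 4, by omega⟩
      obtain ⟨m, hm, hnm⟩ := large_cover n
      have := le_csSup (covSet_bdd (n + 4)) hm
      have h3 : m ≤ cov (n + 4) := this
      omega

/-- For every positive integer `k`, the maximum `cov(2,k)` exists, is at least `2k - 4`, and in
particular is at least `2k - 4√k`. -/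
theorem result : ∀ k : ℕ, 0 < k → IsGreatest (covSet k) (cov k) ∧ 2 * k ≤ cov k + 4 ∧
    2 * (k : ℝ) - 4 * Real.sqrt (k : ℝ) ≤ (cov k : ℝ) := by
  intro k hk
  refine ⟨isGreatest k hk, two_mul_le k, ?_⟩
  have h1 : (2 * (k : ℝ)) ≤ (cov k : ℝ) + 4 := by exact_mod_cast two_mul_le k
  have h2 : (1 : ℝ) ≤ Real.sqrt (k : ℝ) := by
    rw [Real.one_le_sqrt]
    exact_mod_cast hk
  linarith

end Pool.Agent.Results.MP_acc8c3_co.SpanningCover
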